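import Pool.Agent.helper43.MinSub.Ex2

/-!
# The example: a minimal immersion which is proper into a pointwise convex domain
-/

open Bundle Manifold MeasureTheory Set Filter Topology
open scoped ContDiff ENNReal

namespace Pool.Agent.helper43.MS.Gen

/-- The open set of all points of the strip which are mapped into the domain. -/
def U0 : Set (E 3) := {x | Phi x ∈ D0 ∧ |x 0| < Real.pi / 2}

theorem isOpen_U0 : IsOpen U0 := by
  have h1 : IsOpen {x : E 3 | Phi x ∈ D0} := isOpen_D0.preimage contDiff_Phi.continuous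
  have h2 : IsOpen {x : E 3 | |x 0| < Real.pi / 2} := isOpen_lt (by fun_prop) continuous_const
  exact h1.inter h2

theorem Mset_subset_U0 : (Mset : Set (E 3)) ⊆ U0 := by
  intro x hx
  refine ⟨phi0_mem_D0 ⟨x, hx⟩, ?_⟩
  obtain ⟨h1, h2, _⟩ := hx
  have h3 : Real.log 2 < 1 := by
    have := Real.log_two_lt_d9
    linarith
  rw [abs_lt]
  constructor <;> linarith [Real.pi_gt_three]

/-- The base point. -/
noncomputable def x0 : E 3 := Mset_nonempty.some.1

theorem x0_mem : x0 ∈ Mset := Mset_nonempty.some.2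

/-- The domain of the immersion. -/
noncomputable def M1 : TopologicalSpace.Opens (E 3) where
  carrier := connectedComponentIn U0 x0
  is_open' := isOpen_U0.connectedComponentIn

theorem Mset_subset_M1 : ∀ x ∈ Mset, x ∈ M1 := by
  have h1 : IsPreconnected (Mset : Set (E 3)) := by
    have h := connectedSpace_Mset
    have hcs : ConnectedSpace ((Mset : Set (E 3)) : Type) ↔ ConnectedSpace Mset := Iff.rfl
    rw [← hcs, ← isConnected_iff_connectedSpace] at h
    exact h.isPreconnected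
  exact h1.subset_connectedComponentIn x0_mem Mset_subset_U0

theorem connectedSpace_M1 : ConnectedSpace M1 := by
  have hcs : ConnectedSpace ((M1 : Set (E 3)) : Type) ↔ ConnectedSpace M1 := Iff.rfl
  rw [← hcs, ← isConnected_iff_connectedSpace]
  exact isConnected_connectedComponentIn_iff.mpr (Mset_subset_U0 x0_mem)

theorem M1_subset_U0 {x : E 3} (hx : x ∈ M1) : x ∈ U0 := connectedComponentIn_subset _ _ hx

theorem D0_bounds {y : E 5} (hy : y ∈ D0) :
    0 < y 2 ∧ y 2 < 2 ∧ y 0 ^ 2 + y 1 ^ 2 + y 3 ^ 2 + y 4 ^ 2 < 7 := by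
  have h1 : F0 y < 0 := hy
  unfold F0 at h1
  set S := y 0 ^ 2 + y 1 ^ 2 + y 3 ^ 2 + y 4 ^ 2 with hS
  have hS0 : 0 ≤ S := by positivity
  have h2 : 0 ≤ (1 + S / 32) * y 2 ^ 2 / 2 := by positivity
  have h3 : 0 ≤ (max (S - 6) 0) ^ 3 := pow_nonneg (le_max_right _ _) _
  have hpos : 0 < y 2 := by linarith
  have h4 : y 2 ^ 2 / 2 ≤ (1 + S / 32) * y 2 ^ 2 / 2 := by
    have : 0 ≤ S / 32 * y 2 ^ 2 := by positivity
    linarith
  refine ⟨hpos, ?_, ?_⟩
  · by_contra h
    have h5 : 2 ≤ y 2 := not_lt.mp h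
    nlinarith
  · by_contra h
    have h5 : 7 ≤ S := not_lt.mp h
    have h6 : 1 ≤ max (S - 6) 0 := le_max_of_le_left (by linarith)
    have h7 : 1 ≤ (max (S - 6) 0) ^ 3 := one_le_pow₀ h6
    nlinarith [sq_nonneg (y 2 - 1)]

theorem Phi_0 (x : E 3) : Phi x 0 = Real.exp (x 0) * Real.cos (x 1) := rfl
theorem Phi_1 (x : E 3) : Phi x 1 = Real.exp (x 0) * Real.sin (x 1) := rfl
theorem Phi_2 (x : E 3) : Phi x 2 = Real.exp (-x 1) * Real.cos (x 0) := rfl
theorem Phi_3 (x : E 3) : Phi x 3 = Real.exp (-x 1) * Real.sin (x 0) := rfl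
theorem Phi_4 (x : E 3) : Phi x 4 = x 2 := rfl

theorem U0_bounds {x : E 3} (hx : x ∈ U0) : |x 0| ≤ Real.pi / 2 ∧ -2 ≤ x 1 ∧ |x 2| ≤ 3 := by
  obtain ⟨hx1, hx2⟩ := hx
  obtain ⟨h1, h2, h3⟩ := D0_bounds hx1
  rw [Phi_2] at h1 h2
  rw [Phi_0, Phi_1, Phi_3, Phi_4] at h3
  refine ⟨hx2.le, ?_, ?_⟩
  · by_contra h
    have h4 : x 1 < -2 := not_le.mp h
    have h5 : Real.exp 2 < Real.exp (-x 1) := Real.exp_lt_exp.mpr (by linarith)
    have h6 : (4 : ℝ) ≤ Real.exp 2 := by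
      have h7 : Real.exp 2 = Real.exp 1 * Real.exp 1 := by rw [← Real.exp_add]; norm_num
      have h8 := Real.exp_one_gt_d9
      rw [h7]
      nlinarith
    have h7 : 16 ≤ Real.exp (-x 1) ^ 2 := by nlinarith
    have h8 : (Real.exp (-x 1) * Real.cos (x 0)) ^ 2 + (Real.exp (-x 1) * Real.sin (x 0)) ^ 2
        = Real.exp (-x 1) ^ 2 := by
      have := Real.sin_sq_add_cos_sq (x 0)
      linear_combination (Real.exp (-x 1) ^ 2) * this
    have h9 : (Real.exp (-x 1) * Real.cos (x 0)) ^ 2 ≤ 4 := by nlinarith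
    nlinarith [sq_nonneg (Real.exp (x 0) * Real.cos (x 1)), sq_nonneg (Real.exp (x 0) * Real.sin (x 1)),
      sq_nonneg (x 2)]
  · apply abs_le_of_sq_le_sq' _ (by norm_num) |> abs_le.mpr
    nlinarith [sq_nonneg (Real.exp (x 0) * Real.cos (x 1)), sq_nonneg (Real.exp (x 0) * Real.sin (x 1)),
      sq_nonneg (Real.exp (-x 1) * Real.sin (x 0))]

theorem compact_box (T : ℝ) : IsCompact {x : E 3 | |x 0| ≤ Real.pi / 2 ∧
    (-2 ≤ x 1 ∧ x 1 ≤ T) ∧ |x 2| ≤ 3} := by
  have h := (EuclideanSpace.equiv (Fin 3) ℝ).toHomeomorph.isCompact_preimage.2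
    (isCompact_Icc (a := ![-(Real.pi / 2), -2, -3]) (b := ![Real.pi / 2, T, 3]))
  convert h using 1
  ext x
  simp only [mem_ofPred_eq, mem_preimage, mem_Icc, Pi.le_def, Fin.forall_fin_succ, abs_le,
    ContinuousLinearEquiv.coe_toHomeomorph, EuclideanSpace.equiv, PiLp.coe_continuousLinearEquiv]
  simp
  tauto

theorem limitSet_inter_D0 : limitSet (phiM M1) ∩ D0 = ∅ := by
  rw [eq_empty_iff_forall_notMem]
  rintro y ⟨⟨p, hp, hpy⟩, hy⟩
  obtain ⟨hy2, -, -⟩ := D0_bounds hy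
  have hc2 : Tendsto (fun k => phiM M1 (p k) 2) atTop (𝓝 (y 2)) :=
    ((by fun_prop : Continuous fun x : E 5 => x 2).tendsto y).comp hpy
  have hev : ∀ᶠ k in atTop, y 2 / 2 < phiM M1 (p k) 2 :=
    hc2.eventually (lt_mem_nhds (by linarith))
  have hev2 : ∀ᶠ k in atTop, ((p k : M1) : E 3) ∈ {x : E 3 | |x 0| ≤ Real.pi / 2 ∧
      (-2 ≤ x 1 ∧ x 1 ≤ Real.log (2 / y 2)) ∧ |x 2| ≤ 3} := by
    filter_upwards [hev] with k hk
    obtain ⟨h1, h2, h3⟩ := U0_bounds (M1_subset_U0 (p k).2)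
    refine ⟨h1, ⟨h2, ?_⟩, h3⟩
    have h6 : phiM M1 (p k) 2 = Real.exp (-((p k : E 3) 1)) * Real.cos ((p k : E 3) 0) := rfl
    have h7 : y 2 / 2 < Real.exp (-((p k : E 3) 1)) := by
      refine lt_of_lt_of_le hk ?_
      rw [h6]
      exact mul_le_of_le_one_right (Real.exp_pos _).le (Real.cos_le_one _)
    have h8 : Real.log (y 2 / 2) ≤ -((p k : E 3) 1) :=
      (Real.log_le_iff_le_exp (by linarith)).2 h7.le
    have h9 : Real.log (2 / y 2) = - Real.log (y 2 / 2) := by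
      rw [← Real.log_inv, inv_div]
    rw [h9]
    linarith
  obtain ⟨z, hz, φ, hφ, hφz⟩ := (compact_box (Real.log (2 / y 2))).tendsto_subseq' hev2.frequently
  have hPhi : Phi z = y := by
    have h1 : Tendsto (fun k => Phi ((p (φ k) : M1) : E 3)) atTop (𝓝 (Phi z)) :=
      (contDiff_Phi.continuous.tendsto z).comp hφz
    exact tendsto_nhds_unique h1 (hpy.comp hφ.tendsto_atTop)
  have hzU : z ∈ U0 := by
    refine ⟨by rw [hPhi]; exact hy, lt_of_le_of_ne hz.1 ?_⟩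
    intro habs
    have hcos : Real.cos (z 0) = 0 := by rw [← Real.cos_abs, habs, Real.cos_pi_div_two]
    have h1 : Phi z 2 = 0 := by rw [Phi_2, hcos, mul_zero]
    rw [hPhi] at h1
    exact hy2.ne' h1
  have hzM : z ∈ M1 := by
    have hnhds : connectedComponentIn U0 z ∈ 𝓝 z :=
      isOpen_U0.connectedComponentIn.mem_nhds (mem_connectedComponentIn hzU)
    obtain ⟨k, hk⟩ := (hφz.eventually hnhds).exists
    have h1 : connectedComponentIn U0 z = connectedComponentIn U0 ((p (φ k) : M1) : E 3) :=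
      connectedComponentIn_eq hk
    have h2 : connectedComponentIn U0 x0 = connectedComponentIn U0 ((p (φ k) : M1) : E 3) :=
      connectedComponentIn_eq (p (φ k)).2
    show z ∈ connectedComponentIn U0 x0
    rw [h2, ← h1]
    exact mem_connectedComponentIn hzU
  have hlim : Tendsto (p ∘ φ) atTop (𝓝 (⟨z, hzM⟩ : M1)) := by
    rw [tendsto_subtype_rng]
    exact hφz
  have hK := hlim.isCompact_insert_range
  have h6 : ∀ᶠ k in atTop, p k ∈ (insert (⟨z, hzM⟩ : M1) (range (p ∘ φ)))ᶜ :=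
    hp.eventually (hK.compl_mem_cocompact)
  obtain ⟨k, hk⟩ := (hφ.tendsto_atTop.eventually h6).exists
  exact hk (Or.inr ⟨k, rfl⟩)

/-- The example, all properties: the limit set does not meet the domain. -/
theorem example_proper :
    ∃ (D : Set (E 5)) (M : TopologicalSpace.Opens (E 3)) (φ : M → E 5) (μ : Measure M),
      IsOpen D ∧ Bornology.IsBounded D ∧ IsPointwiseConvex 5 3 D ∧ ConnectedSpace M ∧
      IsImm 3 5 φ ∧ IsMinimal 3 5 φ ∧ IsRiemVolume 3 5 φ μ ∧ (∀ p, φ p ∈ D) ∧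
      limitSet φ ∩ D = ∅ ∧ ¬ HasDiscreteSpectrum 3 5 φ μ := by
  obtain ⟨μ, hμ⟩ := exists_volume_phi0 (M := M1)
  exact ⟨D0, M1, phiM M1, μ, isOpen_D0, isBounded_D0, isPointwiseConvex_D0, connectedSpace_M1,
    isImm_phi0, isMinimal_phi0, hμ, fun p => (M1_subset_U0 p.2).1, limitSet_inter_D0,
    not_discrete_phi0 Mset_subset_M1 hμ⟩

end Pool.Agent.helper43.MS.Gen
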