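import Pool.Agent.helper43.MinSub.Defs
import Pool.Agent.helper43.MS.Defs

/-!
# The definitions of `MinSub/Defs.lean` agree with those of `MS/Defs.lean`
-/

open Bundle Manifold MeasureTheory Set Filter Topology
open scoped ContDiff ENNReal

namespace Pool.Agent.helper43.MinSub

open Pool.Agent.helper43

variable {m n : ℕ}

/-- The standard basis. -/
noncomputable abbrev sb (n : ℕ) : OrthonormalBasis (Fin n) ℝ (EuclideanSpace ℝ (Fin n)) :=
  EuclideanSpace.basisFun (Fin n) ℝ

theorem sb_apply (i : Fin n) : sb n i = MS.bv i := by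
  simp [sb, MS.bv]

theorem coord_eq (i : Fin n) (v : MS.E n) : coord (sb n) i v = v i := by
  unfold coord
  rw [sb_apply, MS.bv, EuclideanSpace.inner_single_left]
  simp

theorem pd_eq : pd (sb n) = MS.pd := by
  funext i f x
  unfold pd MS.pd
  rw [sb_apply]

theorem christoffel_eq : christoffel (sb n) = MS.christoffel := by
  funext g y c i j
  unfold christoffel MS.christoffel
  rw [pd_eq]

theorem hess_eq : hess (sb n) = MS.hess := by
  funext g f y v
  unfold hess MS.hess
  simp only [pd_eq, christoffel_eq, coord_eq]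

theorem isOrthoFamily_eq : (IsOrthoFamily (m := m) (sb n)) = MS.IsOrthoFamily := by
  funext A v
  unfold IsOrthoFamily MS.IsOrthoFamily
  simp only [coord_eq]

theorem laplace_eq : laplace (sb n) = MS.laplace := by
  funext g f x
  unfold laplace MS.laplace
  rw [pd_eq]

variable {M : Type*} [TopologicalSpace M] [ChartedSpace (MS.E m) M]
  {N : Type*} [TopologicalSpace N] [ChartedSpace (MS.E n) N]

theorem isImm_iff (φ : M → N) : IsImm (MS.E m) (MS.E n) φ ↔ MS.IsImm m n φ := Iff.rfl

variable [RiemannianBundle (fun q : N => TangentSpace 𝓘(ℝ, MS.E n) q)]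

theorem metricN_eq : metricN (N := N) (sb n) = MS.metricN := by
  funext q y i j
  unfold metricN MS.metricN gram
  rw [sb_apply, sb_apply]

theorem isUniformlyConvex_iff (D : Set N) :
    IsUniformlyConvex (sb n) m D ↔ MS.IsUniformlyConvex n m D := by
  unfold IsUniformlyConvex MS.IsUniformlyConvex MS.SumEigGE
  rw [metricN_eq, hess_eq, isOrthoFamily_eq]
  exact Iff.rfl

theorem isPointwiseConvex_iff (D : Set N) :
    IsPointwiseConvex (sb n) m D ↔ MS.IsPointwiseConvex n m D := by
  unfold IsPointwiseConvex MS.IsPointwiseConvex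
  rw [metricN_eq, hess_eq, isOrthoFamily_eq]
  exact Iff.rfl

theorem metricM_eq : metricM (F := MS.E n) (M := M) (N := N) (sb m) = MS.metricM m n := by
  funext φ p x i j
  unfold metricM MS.metricM gram
  rw [sb_apply, sb_apply]
  rfl

theorem gram_eq : gram (F := MS.E n) (X := M) (N := N) (sb m) = MS.gram m n := by
  funext φ p i j
  unfold MS.gram gram
  rw [sb_apply, sb_apply]

theorem isRiemVolume_iff [MeasurableSpace M] (φ : M → N) (μ : Measure M) :
    IsRiemVolume (F := MS.E n) (sb m) φ μ ↔ MS.IsRiemVolume m n φ μ := by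
  unfold IsRiemVolume MS.IsRiemVolume
  rw [metricM_eq]

omit [RiemannianBundle (fun q : N => TangentSpace 𝓘(ℝ, MS.E n) q)] in
theorem comp_eq (φ : M → N) (p : M) (q : N) (a : Fin n) :
    comp (G := MS.E m) (sb n) φ p q a = fun x => MS.locRep m n φ p q x a := by
  funext x
  unfold comp MS.locRep
  rw [coord_eq]

theorem isMinimal_iff (φ : M → N) : IsMinimal (sb m) (sb n) φ ↔ MS.IsMinimal m n φ := by
  unfold IsMinimal MS.IsMinimal tension MS.tension
  simp only [pd_eq, christoffel_eq, laplace_eq, metricM_eq, metricN_eq, comp_eq]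
  exact Iff.rfl

theorem diffM_eq : diffM (M := M) (sb m) = MS.diffM m := by
  funext u p i
  unfold diffM MS.diffM
  rw [sb_apply]

theorem dirichlet_eq [MeasurableSpace M] :
    dirichlet (F := MS.E n) (M := M) (N := N) (sb m) = MS.dirichlet m n := by
  funext φ μ u v
  unfold dirichlet MS.dirichlet MS.gradInner
  rw [gram_eq, diffM_eq]

theorem limitSet_eq (φ : M → N) : limitSet φ = MS.limitSet φ := rfl

section Spectrum

variable [MeasurableSpace M] {φ : M → N} {μ : Measure M}

theorem isFriedrichsEigen_iff (f : Lp ℝ 2 μ) (lam : ℝ) :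
    IsFriedrichsEigen (F := MS.E n) (sb m) φ μ f lam ↔ MS.IsFriedrichsEigen m n φ μ f lam := by
  unfold IsFriedrichsEigen MS.IsFriedrichsEigen MS.IsTest
  rw [dirichlet_eq, Filter.prod_atTop_atTop_eq]
  constructor
  · rintro ⟨u, h1, h2, h3, h4⟩
    exact ⟨u, h1, h2, h3, fun v hv => h4 v hv.1 hv.2⟩
  · rintro ⟨u, h1, h2, h3, h4⟩
    exact ⟨u, h1, h2, h3, fun v hv hv' => h4 v ⟨hv, hv'⟩⟩

theorem isFriedrichsEigen_congr {f g : M → ℝ} (h : f =ᵐ[μ] g) {lam : ℝ}
    (hf : IsFriedrichsEigen (F := MS.E n) (sb m) φ μ f lam) :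
    IsFriedrichsEigen (F := MS.E n) (sb m) φ μ g lam := by
  obtain ⟨u, h1, h2, h3, h4⟩ := hf
  refine ⟨u, h1, ?_, h3, ?_⟩
  · refine h2.congr fun k => eLpNorm_congr_ae ?_
    filter_upwards [h] with p hp
    rw [hp]
  · intro v hv hv'
    have hi : ∫ p, g p * v p ∂μ = ∫ p, f p * v p ∂μ := by
      refine integral_congr_ae ?_
      filter_upwards [h] with p hp
      rw [hp]
    rw [hi]
    exact h4 v hv hv'

omit [TopologicalSpace M] in
theorem inner_eq_integral (f g : Lp ℝ 2 μ) : inner ℝ f g = ∫ p, f p * g p ∂μ := by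
  rw [L2.inner_def]
  refine integral_congr_ae (Eventually.of_forall fun p => ?_)
  simp [mul_comm]

open Classical in
theorem hasDiscreteSpectrum_of (h : MS.HasDiscreteSpectrum m n φ μ) :
    HasDiscreteSpectrum (F := MS.E n) (sb m) φ μ := by
  obtain ⟨s, lam, ho, hd, hfin, he⟩ := h
  have hlam (f : Lp ℝ 2 μ) : (if h : MemLp (f : M → ℝ) 2 μ then lam (h.toLp f) else 0) = lam f := by
    rw [dif_pos (Lp.memLp f), Lp.toLp_coeFn]
  refine ⟨(fun f : Lp ℝ 2 μ => (f : M → ℝ)) '' s,
    fun g => if h : MemLp g 2 μ then lam (h.toLp g) else 0, ?_, ?_, ?_, ?_, ?_⟩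
  · rintro _ ⟨f, _, rfl⟩
    exact Lp.memLp f
  · rintro _ ⟨f, hf, rfl⟩ _ ⟨g, hg, rfl⟩
    have h1 := (orthonormal_iff_ite.mp ho) ⟨f, hf⟩ ⟨g, hg⟩
    simp only [inner_eq_integral] at h1
    dsimp only
    rw [h1]
    have h2 : (⟨f, hf⟩ : s) = ⟨g, hg⟩ ↔ (f : M → ℝ) = g := by
      constructor
      · intro h
        rw [Subtype.mk.injEq] at h
        rw [h]
      · intro h
        rw [Subtype.mk.injEq]
        exact Lp.ext (Filter.EventuallyEq.of_eq h)
    simp only [h2]
  · intro g hg hg0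
    have h0 : hg.toLp g = 0 := by
      have h1 : ∀ x ∈ (Submodule.span ℝ s).topologicalClosure, inner ℝ x (hg.toLp g) = 0 := by
        intro x hx
        have hcl : IsClosed {x : Lp ℝ 2 μ | inner ℝ x (hg.toLp g) = 0} :=
          isClosed_eq (by fun_prop) continuous_const
        have hsub : ((Submodule.span ℝ s : Submodule ℝ (Lp ℝ 2 μ)) : Set (Lp ℝ 2 μ)) ⊆
            {x : Lp ℝ 2 μ | inner ℝ x (hg.toLp g) = 0} := by
          intro y hy
          induction hy using Submodule.span_induction with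
          | mem y hy =>
            show inner ℝ y (hg.toLp g) = 0
            rw [inner_eq_integral, ← hg0 _ ⟨y, hy, rfl⟩]
            refine integral_congr_ae ?_
            filter_upwards [hg.coeFn_toLp] with p hp
            rw [hp]
          | zero => simp
          | add x y _ _ hx hy =>
            show inner ℝ (x + y) (hg.toLp g) = 0
            rw [inner_add_left, show inner ℝ x (hg.toLp g) = 0 from hx,
              show inner ℝ y (hg.toLp g) = 0 from hy, add_zero]
          | smul c x _ hx =>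
            show inner ℝ (c • x) (hg.toLp g) = 0
            rw [inner_smul_left, show inner ℝ x (hg.toLp g) = 0 from hx, mul_zero]
        exact hcl.closure_subset_iff.mpr hsub hx
      have h2 := h1 (hg.toLp g) (by rw [hd]; trivial)
      exact inner_self_eq_zero.mp h2
    have h3 := hg.coeFn_toLp
    rw [h0] at h3
    exact h3.symm.trans (Lp.coeFn_zero _ _ _)
  · intro Λ
    refine ((hfin Λ).image (fun f : Lp ℝ 2 μ => (f : M → ℝ))).subset ?_
    rintro _ ⟨⟨f, hf, rfl⟩, hle⟩
    dsimp only at hle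
    rw [hlam] at hle
    exact ⟨f, ⟨hf, hle⟩, rfl⟩
  · rintro _ ⟨f, hf, rfl⟩
    dsimp only
    rw [hlam]
    exact (isFriedrichsEigen_iff f _).mpr (he f hf)

open Classical in
theorem hasDiscreteSpectrum_to (h : HasDiscreteSpectrum (F := MS.E n) (sb m) φ μ) :
    MS.HasDiscreteSpectrum m n φ μ := by
  obtain ⟨s, lam, hm, ho, hd, hfin, he⟩ := h
  have huniq : ∀ f ∈ s, ∀ g ∈ s, f =ᵐ[μ] g → f = g := by
    intro f hf g hg hfg
    by_contra hne
    have h1 := ho f hf g hg
    have h2 := ho f hf f hf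
    rw [if_neg hne] at h1
    rw [if_pos rfl] at h2
    have h3 : ∫ p, f p * g p ∂μ = ∫ p, f p * f p ∂μ := by
      refine integral_congr_ae ?_
      filter_upwards [hfg] with p hp
      rw [hp]
    rw [h1, h2] at h3
    exact zero_ne_one h3
  let S : Set (Lp ℝ 2 μ) := {x | ∃ f ∈ s, (x : M → ℝ) =ᵐ[μ] f}
  let L : Lp ℝ 2 μ → ℝ := fun x => if h : ∃ f ∈ s, (x : M → ℝ) =ᵐ[μ] f then lam h.choose else 0
  have hL : ∀ x : Lp ℝ 2 μ, ∀ f ∈ s, (x : M → ℝ) =ᵐ[μ] f → L x = lam f := by
    intro x f hf hx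
    have hex : ∃ f ∈ s, (x : M → ℝ) =ᵐ[μ] f := ⟨f, hf, hx⟩
    show (if h : ∃ f ∈ s, (x : M → ℝ) =ᵐ[μ] f then lam h.choose else 0) = lam f
    rw [dif_pos hex]
    exact congrArg lam (huniq _ hex.choose_spec.1 _ hf (hex.choose_spec.2.symm.trans hx))
  refine ⟨S, L, ?_, ?_, ?_, ?_⟩
  · rw [orthonormal_iff_ite]
    rintro ⟨x, f, hf, hx⟩ ⟨y, g, hg, hy⟩
    dsimp only
    have h1 : inner ℝ x y = ∫ p, f p * g p ∂μ := by
      rw [inner_eq_integral]
      refine integral_congr_ae ?_
      filter_upwards [hx, hy] with p hp hq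
      rw [hp, hq]
    rw [h1, ho f hf g hg]
    have h2 : f = g ↔ (⟨x, f, hf, hx⟩ : S) = ⟨y, g, hg, hy⟩ := by
      rw [Subtype.mk.injEq]
      constructor
      · intro h
        subst h
        exact Lp.ext (hx.trans hy.symm)
      · intro h
        subst h
        exact huniq f hf g hg (hx.symm.trans hy)
    simp only [h2]
  · rw [Submodule.topologicalClosure_eq_top_iff, Submodule.eq_bot_iff]
    intro x hx
    rw [Submodule.mem_orthogonal] at hx
    have h1 := hd x (Lp.memLp x) ?_
    · exact Lp.ext (h1.trans (Lp.coeFn_zero _ _ _).symm)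
    · intro f hf
      have h2 := hx ((hm f hf).toLp f) (Submodule.subset_span ⟨f, hf, (hm f hf).coeFn_toLp⟩)
      rw [inner_eq_integral] at h2
      rw [← h2]
      refine integral_congr_ae ?_
      filter_upwards [(hm f hf).coeFn_toLp] with p hp
      rw [hp]
  · intro Λ
    have h1 : {x ∈ S | L x ≤ Λ} ⊆
        (fun f : M → ℝ => if h : MemLp f 2 μ then h.toLp f else 0) '' {f ∈ s | lam f ≤ Λ} := by
      rintro x ⟨⟨f, hf, hx⟩, hle⟩
      rw [hL x f hf hx] at hle
      refine ⟨f, ⟨hf, hle⟩, ?_⟩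
      dsimp only
      rw [dif_pos (hm f hf)]
      exact Lp.ext ((hm f hf).coeFn_toLp.trans hx.symm)
    exact ((hfin Λ).image _).subset h1
  · rintro x ⟨f, hf, hx⟩
    rw [hL x f hf hx, ← isFriedrichsEigen_iff]
    exact isFriedrichsEigen_congr hx.symm (he f hf)

end Spectrum

end Pool.Agent.helper43.MinSub
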