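import Mathlib

/-!
# Definitions: minimal immersions into Riemannian manifolds and the spectrum of the Laplacian

* `F` and `G` are real inner product spaces with orthonormal bases `b : Fin n → F`, `e : Fin m → G`:
  the model spaces (in the results `F = ℝ^n`, `G = ℝ^m` with the standard bases).
* `N` is a manifold modelled on `F`, with Mathlib's Riemannian structure (`RiemannianBundle`) on its
  tangent bundle.
* `M` is a manifold modelled on `G`, and `φ : M → N` an immersion; `M` carries the induced metric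
  `φ^* g`, so that `φ` is an isometric immersion.
-/

open Bundle Manifold MeasureTheory Set Filter Topology
open scoped ContDiff ENNReal

namespace Pool.Agent.helper43.MinSub

section Local

variable {m n : ℕ} {F : Type*} [NormedAddCommGroup F] [InnerProductSpace ℝ F]
  (b : OrthonormalBasis (Fin n) ℝ F)

/-- The `i`-th coordinate of `v` in the orthonormal basis `b`. -/
noncomputable def coord (i : Fin n) (v : F) : ℝ := inner ℝ (b i) v

/-- The `i`-th partial derivative of a real function on `F`, in the coordinates given by the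
basis `b`. -/
noncomputable def pd (i : Fin n) (f : F → ℝ) (x : F) : ℝ := fderiv ℝ f x (b i)

/-- Christoffel symbols of the second kind `Γ^c_{ij}` at the point `y` of `F` for the metric with
coefficients `g i j`. -/
noncomputable def christoffel (g : F → Matrix (Fin n) (Fin n) ℝ) (y : F) (c i j : Fin n) : ℝ :=
  (1 / 2) * ∑ d, (g y)⁻¹ c d *
    (pd b i (fun z => g z j d) y + pd b j (fun z => g z i d) y - pd b d (fun z => g z i j) y)

/-- The value on `(v, v)` of the Riemannian Hessian of `f : F → ℝ` at `y`, for the metric with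
coefficients `g i j`: `∑_{i,j} (∂_i ∂_j f - ∑_c Γ^c_{ij} ∂_c f) v_i v_j`. -/
noncomputable def hess (g : F → Matrix (Fin n) (Fin n) ℝ) (f : F → ℝ) (y v : F) : ℝ :=
  ∑ i, ∑ j, (pd b i (pd b j f) y - ∑ c, christoffel b g y c i j * pd b c f y) *
    coord b i v * coord b j v

/-- `v 0, ..., v (m-1)` is an orthonormal family for the inner product with matrix `A`. -/
def IsOrthoFamily (A : Matrix (Fin n) (Fin n) ℝ) (v : Fin m → F) : Prop :=
  ∀ k l, ∑ i, ∑ j, A i j * coord b i (v k) * coord b j (v l) = if k = l then 1 else 0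

/-- The Laplace-Beltrami operator of the metric with coefficients `g i j` on (an open subset of)
`F`: `(1 / √det g) ∑_i ∂_i (√det g ∑_j g^{ij} ∂_j f)`. -/
noncomputable def laplace (g : F → Matrix (Fin n) (Fin n) ℝ) (f : F → ℝ) (x : F) : ℝ :=
  (1 / √((g x).det)) *
    ∑ i, pd b i (fun z => √((g z).det) * ∑ j, (g z)⁻¹ i j * pd b j f z) x

end Local

section Gram

variable {m : ℕ} {G : Type*} [NormedAddCommGroup G] [InnerProductSpace ℝ G]
  (e : OrthonormalBasis (Fin m) ℝ G) {X : Type*} [TopologicalSpace X] [ChartedSpace G X]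
  {F : Type*} [NormedAddCommGroup F] [InnerProductSpace ℝ F]
  {N : Type*} [TopologicalSpace N] [ChartedSpace F N]
  [RiemannianBundle (fun q : N => TangentSpace 𝓘(ℝ, F) q)]

/-- The Gram matrix `⟪dψ_x(e_i), dψ_x(e_j)⟫` of the pull-back by `ψ : X → N` of the Riemannian metric
of `N`, at the point `x` of a manifold `X` modelled on `G`, in the basis `e` of `T_x X = G`. -/
noncomputable def gram (ψ : X → N) (x : X) : Matrix (Fin m) (Fin m) ℝ := fun i j =>
  inner ℝ (mfderiv 𝓘(ℝ, G) 𝓘(ℝ, F) ψ x (e i)) (mfderiv 𝓘(ℝ, G) 𝓘(ℝ, F) ψ x (e j))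

end Gram

section Ambient

variable {n : ℕ} {F : Type*} [NormedAddCommGroup F] [InnerProductSpace ℝ F]
  (b : OrthonormalBasis (Fin n) ℝ F)
  {N : Type*} [TopologicalSpace N] [ChartedSpace F N]
  [RiemannianBundle (fun q : N => TangentSpace 𝓘(ℝ, F) q)]

/-- The coefficients `⟪∂_i, ∂_j⟫` of the Riemannian metric of `N` in the chart `chartAt q`, as
functions of the coordinates `y`. -/
noncomputable def metricN (q : N) (y : F) : Matrix (Fin n) (Fin n) ℝ :=
  gram (F := F) b (chartAt F q).symm y

/-- `D` is uniformly `m`-convex: there is a `C²` function `f` on `N` with `f < 0` on `D`, `f = 0` on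
`∂D`, and a constant `c > 0` with `λ_1 + ... + λ_m ≥ c` on `D` for the ordered eigenvalues of the
Hessian of `f`. By the variational characterisation of eigenvalues the last condition says: for all
orthonormal tangent vectors `v_1, ..., v_m` at a point of `D`, `∑_k Hess f (v_k, v_k) ≥ c`.
Everything is computed in the charts of `N`. -/
def IsUniformlyConvex (m : ℕ) (D : Set N) : Prop :=
  ∃ f : N → ℝ, ContMDiff 𝓘(ℝ, F) 𝓘(ℝ, ℝ) 2 f ∧ (∀ x ∈ D, f x < 0) ∧ (∀ x ∈ frontier D, f x = 0) ∧
    ∃ c : ℝ, 0 < c ∧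
      ∀ (q : N) (y : F), y ∈ (chartAt F q).target → (chartAt F q).symm y ∈ D →
        ∀ v : Fin m → F, IsOrthoFamily b (metricN b q y) v →
          c ≤ ∑ k, hess b (metricN b q) (fun z => f ((chartAt F q).symm z)) y (v k)

/-- `D` is `m`-convex in the pointwise sense: there is a `C²` function `f` on `N` with `f < 0` on
`D`, `f = 0` on `∂D`, and `λ_1 + ... + λ_m > 0` at every point of `D` for the ordered eigenvalues of
the Hessian of `f`. -/
def IsPointwiseConvex (m : ℕ) (D : Set N) : Prop :=
  ∃ f : N → ℝ, ContMDiff 𝓘(ℝ, F) 𝓘(ℝ, ℝ) 2 f ∧ (∀ x ∈ D, f x < 0) ∧ (∀ x ∈ frontier D, f x = 0) ∧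
    ∀ (q : N) (y : F), y ∈ (chartAt F q).target → (chartAt F q).symm y ∈ D →
      ∀ v : Fin m → F, IsOrthoFamily b (metricN b q y) v →
        0 < ∑ k, hess b (metricN b q) (fun z => f ((chartAt F q).symm z)) y (v k)

end Ambient

section Immersion

variable {m n : ℕ} {G : Type*} [NormedAddCommGroup G] [InnerProductSpace ℝ G]
  (e : OrthonormalBasis (Fin m) ℝ G)
  {F : Type*} [NormedAddCommGroup F] [InnerProductSpace ℝ F]
  (b : OrthonormalBasis (Fin n) ℝ F)
  {M : Type*} [TopologicalSpace M] [ChartedSpace G M]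
  {N : Type*} [TopologicalSpace N] [ChartedSpace F N]

/-- `φ` is a smooth immersion. -/
def IsImm (G F : Type*) [NormedAddCommGroup G] [InnerProductSpace ℝ G]
    [NormedAddCommGroup F] [InnerProductSpace ℝ F]
    {M : Type*} [TopologicalSpace M] [ChartedSpace G M]
    {N : Type*} [TopologicalSpace N] [ChartedSpace F N] (φ : M → N) : Prop :=
  ContMDiff 𝓘(ℝ, G) 𝓘(ℝ, F) ∞ φ ∧ ∀ p : M, Function.Injective (mfderiv 𝓘(ℝ, G) 𝓘(ℝ, F) φ p)

/-- The `a`-th component of the immersion `φ` in the charts `chartAt p` of `M` and `chartAt q`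
of `N`. -/
noncomputable def comp (φ : M → N) (p : M) (q : N) (a : Fin n) (x : G) : ℝ :=
  coord b a (chartAt F q (φ ((chartAt G p).symm x)))

variable [RiemannianBundle (fun q : N => TangentSpace 𝓘(ℝ, F) q)]

/-- The coefficients of the induced metric of `M` in the chart `chartAt p`, as functions of the
coordinates `x`. -/
noncomputable def metricM (φ : M → N) (p : M) (x : G) : Matrix (Fin m) (Fin m) ℝ :=
  gram (F := F) e (fun z => φ ((chartAt G p).symm z)) x

/-- `μ` is the Riemannian volume of `M` for the induced metric: in every chart it is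
`√det g dx`. -/
def IsRiemVolume [MeasurableSpace G] [BorelSpace G] [FiniteDimensional ℝ G] [MeasurableSpace M]
    (φ : M → N) (μ : Measure M) : Prop :=
  ∀ (p : M) (s : Set G), MeasurableSet s → s ⊆ (chartAt G p).target →
    μ ((chartAt G p).symm '' s) = ∫⁻ x in s, ENNReal.ofReal (√((metricM (F := F) e φ p x).det))

/-- The `a`-th component, in the charts `chartAt p` and `chartAt q`, of the trace
`tr ∇dφ = m H` of the second fundamental form of the isometric immersion `φ`:
`Δ_M φ^a + ∑_{b,c} Γ^a_{bc}(φ) ∑_{i,j} g^{ij} ∂_i φ^b ∂_j φ^c`. -/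
noncomputable def tension (φ : M → N) (p : M) (q : N) (x : G) (a : Fin n) : ℝ :=
  laplace e (metricM (F := F) e φ p) (comp b φ p q a) x +
    ∑ c, ∑ d, christoffel b (metricN b q) (chartAt F q (φ ((chartAt G p).symm x))) a c d *
      ∑ i, ∑ j, (metricM (F := F) e φ p x)⁻¹ i j * pd e i (comp b φ p q c) x * pd e j (comp b φ p q d) x

/-- `φ` is minimal: its mean curvature vanishes identically (computed in all charts). -/
def IsMinimal (φ : M → N) : Prop :=
  ∀ (p : M) (q : N) (x : G), x ∈ (chartAt G p).target →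
    φ ((chartAt G p).symm x) ∈ (chartAt F q).source → ∀ a : Fin n, tension e b φ p q x a = 0

/-- The value `du_p(e_i)` of the differential of `u` on the `i`-th basis vector of
`T_p M = G`. -/
noncomputable def diffM (u : M → ℝ) (p : M) (i : Fin m) : ℝ :=
  mfderiv 𝓘(ℝ, G) 𝓘(ℝ, ℝ) u p (e i)

/-- The Dirichlet form `∫_M ⟪∇u, ∇v⟫ dvol`, for the induced metric. -/
noncomputable def dirichlet [MeasurableSpace M] (φ : M → N) (μ : Measure M) (u v : M → ℝ) : ℝ :=
  ∫ p, ∑ i, ∑ j, (gram (F := F) e φ p)⁻¹ i j * diffM e u p i * diffM e v p j ∂μ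

/-- `f ∈ L²(M)` is an eigenfunction, with eigenvalue `lam`, of the Friedrichs extension of `-Δ` on
`C_c^∞(M)`, i.e. of the self-adjoint operator of the closure of the Dirichlet form: `f` is the
`L²`-limit of test functions `u_k` (smooth, with compact support) which form a Cauchy sequence for
the Dirichlet form, and `lim_k ∫ ⟪∇u_k, ∇v⟫ = lam ∫ f v` for every test function `v`. -/
def IsFriedrichsEigen [MeasurableSpace M] (φ : M → N) (μ : Measure M) (f : M → ℝ) (lam : ℝ) :
    Prop :=
  ∃ u : ℕ → M → ℝ, (∀ k, ContMDiff 𝓘(ℝ, G) 𝓘(ℝ, ℝ) ∞ (u k) ∧ HasCompactSupport (u k)) ∧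
    Tendsto (fun k => eLpNorm (fun p => u k p - f p) 2 μ) atTop (𝓝 0) ∧
    Tendsto (fun kl : ℕ × ℕ => dirichlet (F := F) e φ μ
      (fun p => u kl.1 p - u kl.2 p) (fun p => u kl.1 p - u kl.2 p)) atTop (𝓝 0) ∧
    ∀ v : M → ℝ, ContMDiff 𝓘(ℝ, G) 𝓘(ℝ, ℝ) ∞ v → HasCompactSupport v →
      Tendsto (fun k => dirichlet (F := F) e φ μ (u k) v) atTop (𝓝 (lam * ∫ p, f p * v p ∂μ))

open Classical in
/-- The spectrum of (the Friedrichs extension of) `-Δ` on `M` is discrete: there is a set `s` of
eigenfunctions which is an orthonormal basis of `L²(M)`, and for every `Λ` only finitely many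
elements of the basis have eigenvalue at most `Λ`. -/
def HasDiscreteSpectrum [MeasurableSpace M] (φ : M → N) (μ : Measure M) : Prop :=
  ∃ (s : Set (M → ℝ)) (lam : (M → ℝ) → ℝ),
    (∀ f ∈ s, MemLp f 2 μ) ∧
    (∀ f ∈ s, ∀ g ∈ s, ∫ p, f p * g p ∂μ = if f = g then 1 else 0) ∧
    (∀ g : M → ℝ, MemLp g 2 μ → (∀ f ∈ s, ∫ p, f p * g p ∂μ = 0) → g =ᵐ[μ] 0) ∧
    (∀ Λ : ℝ, {f ∈ s | lam f ≤ Λ}.Finite) ∧
    ∀ f ∈ s, IsFriedrichsEigen (F := F) e φ μ f (lam f)

end Immersion

/-- The limit set of `φ`: all limits of `φ(p_k)` for sequences `p_k` that leave every compact subset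
of `M`. -/
def limitSet {M N : Type*} [TopologicalSpace M] [TopologicalSpace N] (φ : M → N) : Set N :=
  {x | ∃ p : ℕ → M, Tendsto p atTop (cocompact M) ∧ Tendsto (fun k => φ (p k)) atTop (𝓝 x)}

section Statements

variable {m n : ℕ} {G : Type*} [NormedAddCommGroup G] [InnerProductSpace ℝ G] [MeasurableSpace G]
  [BorelSpace G] [FiniteDimensional ℝ G] (e : OrthonormalBasis (Fin m) ℝ G)

universe u v

/-- The statement: let `N` be a Riemannian manifold modelled on `F` (no completeness or curvature
assumption), `D ⊆ N` an open set with compact closure which is uniformly `m`-convex, and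
`φ : M → N` a minimal immersion of a manifold modelled on `G`, `M` with the induced metric and `μ` its
Riemannian volume, such that `φ(M) ⊆ D`. If the part in `D` of the limit set of `φ` has
`m`-dimensional Hausdorff measure zero, then the Laplacian of `M` has discrete spectrum. -/
def SmallLimitSetDiscrete {F : Type*} [NormedAddCommGroup F] [InnerProductSpace ℝ F]
    (b : OrthonormalBasis (Fin n) ℝ F) : Prop :=
  ∀ (N : Type u) [EMetricSpace N] [ChartedSpace F N] [IsManifold 𝓘(ℝ, F) ∞ N]
    [MeasurableSpace N] [BorelSpace N] [RiemannianBundle (fun q : N => TangentSpace 𝓘(ℝ, F) q)]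
    [IsContMDiffRiemannianBundle 𝓘(ℝ, F) ∞ F (fun q : N => TangentSpace 𝓘(ℝ, F) q)]
    [IsRiemannianManifold 𝓘(ℝ, F) N]
    (M : Type v) [TopologicalSpace M] [T2Space M] [SecondCountableTopology M]
    [ChartedSpace G M] [IsManifold 𝓘(ℝ, G) ∞ M] [MeasurableSpace M] [BorelSpace M]
    (φ : M → N) (μ : Measure M) (D : Set N),
    IsOpen D → IsCompact (closure D) → IsUniformlyConvex b m D →
    IsImm G F φ → IsMinimal e b φ → IsRiemVolume (F := F) e φ μ → (∀ p, φ p ∈ D) →
    μH[(m : ℝ)] (limitSet φ ∩ D) = 0 → HasDiscreteSpectrum (F := F) e φ μ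

/-- The data of the example: a bounded open set `D ⊆ F`, a connected open set `M ⊆ G` and a minimal
immersion `φ : M → F` with image in `D` such that `D` is pointwise `m`-convex, the limit set of `φ`
does not meet `D` (so that `φ` is proper as a map from `M` to `D`), but the Laplacian of `M`, with
the induced metric, does not have discrete spectrum. -/
def IsNondiscreteExample {F : Type*} [NormedAddCommGroup F] [InnerProductSpace ℝ F]
    (b : OrthonormalBasis (Fin n) ℝ F)
    (D : Set F) (M : TopologicalSpace.Opens G) (φ : M → F) (μ : Measure M) : Prop :=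
  IsOpen D ∧ Bornology.IsBounded D ∧ IsPointwiseConvex b m D ∧ ConnectedSpace M ∧
    IsImm G F φ ∧ IsMinimal e b φ ∧ IsRiemVolume (F := F) e φ μ ∧ (∀ p, φ p ∈ D) ∧
    limitSet φ ∩ D = ∅ ∧ ¬ HasDiscreteSpectrum (F := F) e φ μ

end Statements

end Pool.Agent.helper43.MinSub
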