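import Pool.Agent.helper61.MS.C2
import Pool.Agent.helper61.MS.C3
import Pool.Agent.helper61.MS.C4
import Pool.Agent.helper68.MS.C5

/-!
# The immersion of the example on an arbitrary open subset of `ℝ³`
-/

open Bundle Manifold MeasureTheory Set Filter Topology
open scoped ContDiff ENNReal

namespace Pool.Agent.helper43.MS.Gen

/-- The restriction of `Phi` to an open set. -/
noncomputable def phiM (M : TopologicalSpace.Opens (E 3)) (p : M) : E 5 := Phi p

variable {M : TopologicalSpace.Opens (E 3)}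

lemma c1_chart_coe (p : M) (y : M) : chartAt (E 3) p y = (y : E 3) := rfl

theorem target_Mset (p : M) : (chartAt (E 3) p).target = (M : Set (E 3)) := by
  have h : chartAt (E 3) p = (chartAt (E 3) p.1).subtypeRestr ⟨p⟩ := rfl
  rw [h, OpenPartialHomeomorph.subtypeRestr_def]
  ext x
  simp [mfld_simps]

lemma source_Mset (p : M) : (chartAt (E 3) p).source = univ := by
  have h : chartAt (E 3) p = (chartAt (E 3) p.1).subtypeRestr ⟨p⟩ := rfl
  rw [h, OpenPartialHomeomorph.subtypeRestr_source]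
  simp [mfld_simps]

lemma c1_symm_coe (p : M) {x : E 3} (hx : x ∈ M) :
    (((chartAt (E 3) p).symm x : M) : E 3) = x := by
  rw [← c1_chart_coe p, (chartAt (E 3) p).right_inv]
  rw [target_Mset]
  exact hx

lemma c1_symm (p : M) {x : E 3} (hx : x ∈ M) :
    (chartAt (E 3) p).symm x = ⟨x, hx⟩ := Subtype.ext (c1_symm_coe p hx)

lemma c1_isOpen : IsOpen (M : Set (E 3)) := M.isOpen

/-- local form of `(phiM M)`. -/
lemma phi0_symm_eventuallyEq (p : M) {x : E 3} (hx : x ∈ M) :
    ((phiM M) ∘ (chartAt (E 3) p).symm) =ᶠ[𝓝 x] Phi := by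
  filter_upwards [c1_isOpen.mem_nhds hx] with y hy
  rw [Function.comp_apply, phiM, c1_symm_coe p hy]

lemma mfderiv_phi0_symm (p : M) {x : E 3} (hx : x ∈ M) (i : Fin 3) :
    mfderiv 𝓘(ℝ, E 3) 𝓘(ℝ, E 5) ((phiM M) ∘ (chartAt (E 3) p).symm) x (bv i) = dPhi x i := by
  rw [mfderiv_eq_fderiv, (phi0_symm_eventuallyEq p hx).fderiv_eq]
  exact fderiv_Phi x i

theorem metricM_phi0' (p : M) {x : E 3} (hx : x ∈ M) :
    metricM 3 5 (phiM M) p x = Matrix.diagonal ![lamPhi x, lamPhi x, 1] := by
  ext i j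
  rw [metricM, mfderiv_phi0_symm p hx, mfderiv_phi0_symm p hx]
  exact inner_dPhi x i j

theorem metricM_phi0 (p : M) {x : E 3} (hx : x ∈ M) :
    metricM 3 5 (phiM M) p x = Matrix.diagonal ![Real.exp (2 * x 0) + Real.exp (-(2 * x 1)),
      Real.exp (2 * x 0) + Real.exp (-(2 * x 1)), 1] :=
  metricM_phi0' p hx

theorem isImm_phi0 : IsImm 3 5 (phiM M) := by
  refine ⟨?_, ?_⟩
  · exact (contDiff_Phi.contMDiff).comp contMDiff_subtype_val
  · intro p
    have hd : MDifferentiableAt 𝓘(ℝ, E 3) 𝓘(ℝ, E 5) (phiM M) p :=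
      ((contDiff_Phi.contMDiff).comp contMDiff_subtype_val).mdifferentiable (by simp) p
    have h1 : mfderiv 𝓘(ℝ, E 3) 𝓘(ℝ, E 5) (phiM M) p = fderiv ℝ Phi p.1 := by
      rw [mfderiv, if_pos hd]
      simp only [writtenInExtChartAt, mfld_simps, fderivWithin_univ]
      exact (phi0_symm_eventuallyEq p p.2).fderiv_eq
    rw [h1]
    exact fderiv_Phi_injective p.1

lemma det_metricM_phi0 (p : M) {x : E 3} (hx : x ∈ M) :
    √((metricM 3 5 (phiM M) p x).det) = lamPhi x := by
  rw [metricM_phi0' p hx, Matrix.det_diagonal]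
  simp only [Fin.prod_univ_succ, Matrix.cons_val_zero, Matrix.cons_val_succ, Finset.univ_eq_empty,
    Finset.prod_empty, mul_one]
  exact Real.sqrt_mul_self (lamPhi_pos x).le

theorem exists_volume_phi0 : ∃ μ : Measure M, IsRiemVolume 3 5 (phiM M) μ := by
  have hm : MeasurableSet (M : Set (E 3)) := c1_isOpen.measurableSet
  refine ⟨Measure.comap (Subtype.val : M → E 3)
    ((volume : Measure (E 3)).withDensity (fun x => ENNReal.ofReal (lamPhi x))), ?_⟩
  intro p s hs hst
  rw [target_Mset] at hst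
  have hcomap : ∀ t : Set M, Measure.comap (Subtype.val : M → E 3)
      ((volume : Measure (E 3)).withDensity (fun x => ENNReal.ofReal (lamPhi x))) t
      = ((volume : Measure (E 3)).withDensity (fun x => ENNReal.ofReal (lamPhi x)))
        ((Subtype.val : M → E 3) '' t) :=
    fun t => (MeasurableEmbedding.subtype_coe hm).comap_apply _ t
  rw [hcomap]
  have h1 : (Subtype.val : M → E 3) '' ((chartAt (E 3) p).symm '' s) = s := by
    rw [image_image]
    ext x
    constructor
    · rintro ⟨y, hy, rfl⟩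
      have := c1_symm_coe p (hst hy)
      show (((chartAt (E 3) p).symm y : M) : E 3) ∈ s
      rw [this]
      exact hy
    · intro hx
      exact ⟨x, hx, c1_symm_coe p (hst hx)⟩
  rw [h1, withDensity_apply _ hs]
  refine setLIntegral_congr_fun hs fun x hx => ?_
  show ENNReal.ofReal (lamPhi x) = ENNReal.ofReal (√((metricM 3 5 (phiM M) p x).det))
  rw [det_metricM_phi0 p (hst hx)]

private theorem c2_symm (p : M) {x : E 3} (hx : x ∈ M) :
    (((chartAt (E 3) p).symm x : M) : E 3) = x := by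
  have hx' : x ∈ (chartAt (E 3) p).target := by rw [target_Mset]; exact hx
  exact (chartAt (E 3) p).right_inv hx'

private theorem c2_locRep (p : M) (q : E 5) {x : E 3} (hx : x ∈ M) :
    locRep 3 5 (phiM M) p q x = Phi x := by
  unfold locRep phiM
  rw [chartAt_self_eq, c2_symm p hx]
  rfl

private theorem c2_pd_congr {k : ℕ} {f g : E k → ℝ} {x : E k} (h : f =ᶠ[𝓝 x] g) (i : Fin k) :
    pd i f x = pd i g x := by
  unfold pd
  rw [h.fderiv_eq]

private noncomputable def c2l (x : E 3) : ℝ := Real.exp (2 * x 0) + Real.exp (-(2 * x 1))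

private theorem c2_l_pos (x : E 3) : 0 < c2l x := by unfold c2l; positivity

private theorem c2_det (l : ℝ) (hl : 0 < l) :
    √((Matrix.diagonal ![l, l, 1] : Matrix (Fin 3) (Fin 3) ℝ).det) = l := by
  rw [Matrix.det_diagonal, Fin.prod_univ_three]
  simp only [Matrix.cons_val_zero, Matrix.cons_val_one, Matrix.cons_val]
  rw [mul_one, Real.sqrt_mul_self hl.le]

private theorem c2_inv (l : ℝ) (hl : 0 < l) :
    (Matrix.diagonal ![l, l, 1] : Matrix (Fin 3) (Fin 3) ℝ)⁻¹ = Matrix.diagonal ![l⁻¹, l⁻¹, 1] := by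
  refine Matrix.inv_eq_right_inv ?_
  rw [Matrix.diagonal_mul_diagonal, ← Matrix.diagonal_one]
  congr 1
  funext i
  fin_cases i <;> simp [hl.ne']

private theorem c2_nhds {x : E 3} (hx : x ∈ M) : ∀ᶠ z in 𝓝 x, z ∈ M :=
  M.isOpen.mem_nhds hx

/-- the Laplacian for the metric of the example -/
private theorem c2_laplace (p : M) {x : E 3} (hx : x ∈ M) (f g : E 3 → ℝ)
    (hfg : ∀ z ∈ M, f z = g z) :
    laplace (metricM 3 5 (phiM M) p) f x = (1 / c2l x) * (pd 0 (pd 0 g) x + pd 1 (pd 1 g) x +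
      pd 2 (fun z => c2l z * pd 2 g z) x) := by
  have hpd : ∀ z ∈ M, ∀ j, pd j f z = pd j g z := fun z hz j =>
    c2_pd_congr ((c2_nhds hz).mono fun y hy => hfg y hy) j
  have hdet : ∀ z ∈ M, √((metricM 3 5 (phiM M) p z).det) = c2l z := fun z hz => by
    rw [metricM_phi0 p hz]
    exact c2_det _ (c2_l_pos z)
  have hinv : ∀ z ∈ M, (metricM 3 5 (phiM M) p z)⁻¹ =
      Matrix.diagonal ![(c2l z)⁻¹, (c2l z)⁻¹, 1] := fun z hz => by
    rw [metricM_phi0 p hz]
    exact c2_inv _ (c2_l_pos z)
  unfold laplace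
  rw [hdet x hx, Fin.sum_univ_three]
  congr 1
  have h0 : pd 0 (fun z => √((metricM 3 5 (phiM M) p z).det) *
      ∑ j, (metricM 3 5 (phiM M) p z)⁻¹ 0 j * pd j f z) x = pd 0 (pd 0 g) x := by
    refine c2_pd_congr ((c2_nhds hx).mono fun z hz => ?_) 0
    simp only [hdet z hz, hinv z hz, hpd z hz, Fin.sum_univ_three]
    have := (c2_l_pos z).ne'
    simp
    field_simp
  have h1 : pd 1 (fun z => √((metricM 3 5 (phiM M) p z).det) *
      ∑ j, (metricM 3 5 (phiM M) p z)⁻¹ 1 j * pd j f z) x = pd 1 (pd 1 g) x := by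
    refine c2_pd_congr ((c2_nhds hx).mono fun z hz => ?_) 1
    simp only [hdet z hz, hinv z hz, hpd z hz, Fin.sum_univ_three]
    have := (c2_l_pos z).ne'
    simp
    field_simp
  have h2 : pd 2 (fun z => √((metricM 3 5 (phiM M) p z).det) *
      ∑ j, (metricM 3 5 (phiM M) p z)⁻¹ 2 j * pd j f z) x = pd 2 (fun z => c2l z * pd 2 g z) x := by
    refine c2_pd_congr ((c2_nhds hx).mono fun z hz => ?_) 2
    simp only [hdet z hz, hinv z hz, hpd z hz, Fin.sum_univ_three]
    simp
  rw [h0, h1, h2]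

private theorem c2_line (y : E 3) (t : ℝ) (i b : Fin 3) :
    (y + t • bv b) i = y i + if i = b then t else 0 := by
  simp [bv]

private theorem c2_hline (y : E 3) (i j : Fin 3) :
    HasDerivAt (fun t : ℝ => (y + t • bv i : E 3) j) (if j = i then 1 else 0) 0 := by
  simp only [c2_line]
  by_cases h : j = i
  · simp only [if_pos h]
    exact (hasDerivAt_id (0 : ℝ)).const_add (y j)
  · simp only [if_neg h]
    exact hasDerivAt_const _ _

private theorem c2_at0 (y : E 3) (i j : Fin 3) : (y + (0 : ℝ) • bv i : E 3) j = y j := by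
  simp

private theorem c2_hd {f g : ℝ → ℝ} {a b x : ℝ} (h : HasDerivAt f a x) (hfg : f = g)
    (hab : a = b) : HasDerivAt g b x := by
  subst hfg hab
  exact h

private theorem c2_pd_ec (i : Fin 3) (σ : ℝ) (j k : Fin 3) :
    pd i (fun z : E 3 => Real.exp (σ * z j) * Real.cos (z k)) = fun z =>
      (if j = i then σ else 0) * (Real.exp (σ * z j) * Real.cos (z k)) +
      (if k = i then -1 else 0) * (Real.exp (σ * z j) * Real.sin (z k)) := by
  funext z
  refine pd_eq_of_hasDerivAt (by fun_prop) i ?_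
  have h1 := ((c2_hline z i j).const_mul σ).exp.mul (c2_hline z i k).cos
  simp only [c2_at0] at h1
  refine c2_hd h1 (by funext t; rfl) ?_
  split_ifs <;> ring

private theorem c2_pd_es (i : Fin 3) (σ : ℝ) (j k : Fin 3) :
    pd i (fun z : E 3 => Real.exp (σ * z j) * Real.sin (z k)) = fun z =>
      (if j = i then σ else 0) * (Real.exp (σ * z j) * Real.sin (z k)) +
      (if k = i then 1 else 0) * (Real.exp (σ * z j) * Real.cos (z k)) := by
  funext z
  refine pd_eq_of_hasDerivAt (by fun_prop) i ?_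
  have h1 := ((c2_hline z i j).const_mul σ).exp.mul (c2_hline z i k).sin
  simp only [c2_at0] at h1
  refine c2_hd h1 (by funext t; rfl) ?_
  split_ifs <;> ring

private theorem c2_pd_lin (i : Fin 3) (f g : E 3 → ℝ) (a b : ℝ) (hf : Differentiable ℝ f)
    (hg : Differentiable ℝ g) :
    pd i (fun z => a * f z + b * g z) = fun z => a * pd i f z + b * pd i g z := by
  funext z
  unfold pd
  have h : HasFDerivAt (fun z => a * f z + b * g z) (a • fderiv ℝ f z + b • fderiv ℝ g z) z :=
    ((hf z).hasFDerivAt.const_mul a).add ((hg z).hasFDerivAt.const_mul b)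
  rw [h.fderiv]
  simp

private theorem c2_ec (σ : ℝ) (hσ : σ * σ = 1) (j k : Fin 3) (hjk : j ≠ k) (x : E 3) :
    pd j (pd j (fun z : E 3 => Real.exp (σ * z j) * Real.cos (z k))) x +
    pd k (pd k (fun z : E 3 => Real.exp (σ * z j) * Real.cos (z k))) x = 0 := by
  simp only [c2_pd_ec, if_true, if_neg hjk, if_neg (Ne.symm hjk)]
  rw [c2_pd_lin j _ _ _ _ (by fun_prop) (by fun_prop),
    c2_pd_lin k _ _ _ _ (by fun_prop) (by fun_prop)]
  simp only [c2_pd_ec, c2_pd_es, if_true, if_neg hjk, if_neg (Ne.symm hjk)]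
  linear_combination (Real.exp (σ * x j) * Real.cos (x k)) * hσ

private theorem c2_es (σ : ℝ) (hσ : σ * σ = 1) (j k : Fin 3) (hjk : j ≠ k) (x : E 3) :
    pd j (pd j (fun z : E 3 => Real.exp (σ * z j) * Real.sin (z k))) x +
    pd k (pd k (fun z : E 3 => Real.exp (σ * z j) * Real.sin (z k))) x = 0 := by
  simp only [c2_pd_es, if_true, if_neg hjk, if_neg (Ne.symm hjk)]
  rw [c2_pd_lin j _ _ _ _ (by fun_prop) (by fun_prop),
    c2_pd_lin k _ _ _ _ (by fun_prop) (by fun_prop)]
  simp only [c2_pd_ec, c2_pd_es, if_true, if_neg hjk, if_neg (Ne.symm hjk)]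
  linear_combination (Real.exp (σ * x j) * Real.sin (x k)) * hσ

private theorem c2_pd_proj (i j : Fin 3) :
    pd i (fun z : E 3 => z j) = fun _ => if j = i then 1 else 0 := by
  funext z
  exact pd_eq_of_hasDerivAt (by fun_prop) i (c2_hline z i j)

theorem isMinimal_phi0 : IsMinimal 3 5 (phiM M) := by
  intro p q x hx hq a
  have hx' : x ∈ M := by rw [target_Mset] at hx; exact hx
  unfold tension
  have h2 : ∑ b, ∑ c, christoffel (metricN q) (locRep 3 5 (phiM M) p q x) a b c *
      ∑ i, ∑ j, (metricM 3 5 (phiM M) p x)⁻¹ i j *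
        pd i (fun z => locRep 3 5 (phiM M) p q z b) x * pd j (fun z => locRep 3 5 (phiM M) p q z c) x = 0 := by
    refine Finset.sum_eq_zero fun b _ => Finset.sum_eq_zero fun c _ => ?_
    rw [metricN_E, christoffel_const, zero_mul]
  rw [h2, add_zero, c2_laplace p hx' _ (fun z => Phi z a) (fun z hz => by rw [c2_locRep p q hz])]
  have h3 : pd 0 (pd 0 (fun z => Phi z a)) x + pd 1 (pd 1 (fun z => Phi z a)) x +
      pd 2 (fun z => c2l z * pd 2 (fun z => Phi z a) z) x = 0 := by
    fin_cases a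
    · have e : (fun z : E 3 => Phi z (⟨0, by norm_num⟩ : Fin 5)) =
          fun z => Real.exp (1 * z 0) * Real.cos (z 1) := by
        funext z
        rw [one_mul]
        rfl
      simp only [e]
      rw [c2_ec 1 (by norm_num) 0 1 (by decide) x, c2_pd_ec]
      simp [pd_const]
    · have e : (fun z : E 3 => Phi z (⟨1, by norm_num⟩ : Fin 5)) =
          fun z => Real.exp (1 * z 0) * Real.sin (z 1) := by
        funext z
        rw [one_mul]
        rfl
      simp only [e]
      rw [c2_es 1 (by norm_num) 0 1 (by decide) x, c2_pd_es]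
      simp [pd_const]
    · have e : (fun z : E 3 => Phi z (⟨2, by norm_num⟩ : Fin 5)) =
          fun z => Real.exp ((-1) * z 1) * Real.cos (z 0) := by
        funext z
        rw [neg_one_mul]
        rfl
      simp only [e]
      rw [add_comm (pd 0 _ x), c2_ec (-1) (by norm_num) 1 0 (by decide) x, c2_pd_ec]
      simp [pd_const]
    · have e : (fun z : E 3 => Phi z (⟨3, by norm_num⟩ : Fin 5)) =
          fun z => Real.exp ((-1) * z 1) * Real.sin (z 0) := by
        funext z
        rw [neg_one_mul]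
        rfl
      simp only [e]
      rw [add_comm (pd 0 _ x), c2_es (-1) (by norm_num) 1 0 (by decide) x, c2_pd_es]
      simp [pd_const]
    · have e : (fun z : E 3 => Phi z (⟨4, by norm_num⟩ : Fin 5)) = fun z => z 2 := by
        funext z
        rfl
      simp only [e, c2_pd_proj]
      simp only [pd_const, if_true, mul_one]
      rw [zero_add, zero_add]
      change pd 2 (fun z : E 3 => Real.exp (2 * z 0) + Real.exp (-(2 * z 1))) x = 0
      refine pd_eq_of_hasDerivAt (by fun_prop) 2 ?_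
      have h := (((c2_hline x 2 0).const_mul 2).exp).add ((((c2_hline x 2 1).const_mul 2).neg).exp)
      exact c2_hd h (by funext t; simp) (by simp)
  rw [h3, mul_zero]

end Pool.Agent.helper43.MS.Gen
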