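import Pool.Agent.helper43.MinSub.Ex1

/-!
# The spectrum of the example is not discrete
-/

open Bundle Manifold MeasureTheory Set Filter Topology
open scoped ContDiff ENNReal

namespace Pool.Agent.helper43.MS.Gen

variable {M : TopologicalSpace.Opens (E 3)}

lemma integral_phi0 {μ : Measure M} (hne : Nonempty M) (hμ : IsRiemVolume 3 5 (phiM M) μ) (g : M → ℝ)
    (G : E 3 → ℝ) (hG : ∀ p : M, g p = G p.1) :
    ∫ p, g p ∂μ = ∫ x in (M : Set (E 3)), G x * lamPhi x := by
  obtain ⟨p₀⟩ := hne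
  have h1 := hμ.setIntegral isImm_phi0 p₀ (s := (M : Set (E 3))) c1_isOpen.measurableSet
    (by rw [target_Mset]) g
  have h2 : (chartAt (E 3) p₀).symm '' (M : Set (E 3)) = univ := by
    rw [← target_Mset p₀, OpenPartialHomeomorph.symm_image_target_eq_source, source_Mset]
  rw [h2, Measure.restrict_univ] at h1
  rw [h1]
  refine setIntegral_congr_fun c1_isOpen.measurableSet fun x hx => ?_
  show g ((chartAt (E 3) p₀).symm x) * _ = G x * lamPhi x
  rw [det_metricM_phi0 p₀ hx, hG, c1_symm_coe p₀ hx]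

lemma c5F_fderiv_zero {k : ℕ} {x : E 3} (hx : x ∉ Mset) : fderiv ℝ (c5F k) x = 0 := by
  have h1 : 1 / 4 < dist x (c5c k) := by
    by_contra h
    exact hx (c5_mem (not_lt.mp h))
  have h2 : c5F k =ᶠ[𝓝 x] fun _ => 0 := by
    have h3 : ∀ᶠ y in 𝓝 x, 1 / 4 < dist y (c5c k) :=
      (continuous_id.dist continuous_const).continuousAt.eventually (lt_mem_nhds h1)
    filter_upwards [h3] with y hy
    exact c5F_zero hy.le
  rw [h2.fderiv_eq]
  simp

/-- the test functions. -/
noncomputable def c5u (k : ℕ) (p : M) : ℝ := c5F k p.1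

lemma c5u_isTest (hM : ∀ x ∈ Mset, x ∈ M) (k : ℕ) : IsTest 3 ((c5u (M := M)) k) := by
  refine ⟨(c5F_contDiff k).contMDiff.comp contMDiff_subtype_val, ?_⟩
  have hK : IsCompact ((Subtype.val : M → E 3) ⁻¹' (Metric.closedBall (c5c k) (1 / 4))) := by
    apply Topology.IsInducing.isCompact_preimage' Topology.IsInducing.subtypeVal
      (isCompact_closedBall _ _)
    intro x hx
    exact ⟨⟨x, hM x (c5_mem hx)⟩, rfl⟩
  refine HasCompactSupport.intro hK fun p hp => ?_
  apply c5F_zero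
  rw [mem_preimage, Metric.mem_closedBall, not_le] at hp
  exact hp.le

lemma c5_grad (hM : ∀ x ∈ Mset, x ∈ M) (k : ℕ) (p : M) : gradInner 3 5 (phiM M) ((c5u (M := M)) k) ((c5u (M := M)) k) p * lamPhi p.1
    ≤ 15 * ‖fderiv ℝ (c5F k) p.1‖ ^ 2 := by
  have hx : p.1 ∈ M := p.2
  have hx' : p.1 ∈ (chartAt (E 3) p).target := by rw [target_Mset]; exact hx
  have h0 : (chartAt (E 3) p).symm p.1 = p := c1_symm p hx
  have h1 := gradInner_chart isImm_phi0 hx' ((c5u_isTest hM k).mdifferentiableAt _)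
    ((c5u_isTest hM k).mdifferentiableAt _)
  rw [h0] at h1
  have h2 : ∀ i, pd i ((c5u (M := M)) k ∘ (chartAt (E 3) p).symm) p.1 = fderiv ℝ (c5F k) p.1 (bv i) := by
    intro i
    have h3 : ((c5u (M := M)) k ∘ (chartAt (E 3) p).symm) =ᶠ[𝓝 p.1] c5F k := by
      filter_upwards [c1_isOpen.mem_nhds hx] with y hy
      rw [Function.comp_apply, c5u, c1_symm_coe p hy]
    rw [pd, h3.fderiv_eq]
  simp only [h2] at h1
  have hl := lamPhi_pos p.1
  have hinv : (metricM 3 5 (phiM M) p p.1)⁻¹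
      = Matrix.diagonal ![(lamPhi p.1)⁻¹, (lamPhi p.1)⁻¹, 1] := by
    rw [metricM_phi0' p hx]
    apply Matrix.inv_eq_right_inv
    rw [Matrix.diagonal_mul_diagonal]
    ext i j
    by_cases hij : i = j
    · subst hij
      rw [Matrix.diagonal_apply_eq, Matrix.one_apply_eq]
      fin_cases i <;> simp [hl.ne']
    · rw [Matrix.diagonal_apply_ne _ hij, Matrix.one_apply_ne hij]
  rw [h1, hinv]
  set L := fderiv ℝ (c5F k) p.1 with hL
  have hsum : ∑ i, ∑ j, (Matrix.diagonal ![(lamPhi p.1)⁻¹, (lamPhi p.1)⁻¹, 1] :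
      Matrix (Fin 3) (Fin 3) ℝ) i j * L (bv i) * L (bv j)
      = (lamPhi p.1)⁻¹ * L (bv 0) ^ 2 + (lamPhi p.1)⁻¹ * L (bv 1) ^ 2 + L (bv 2) ^ 2 := by
    simp [Fin.sum_univ_succ, Matrix.diagonal]
    ring
  rw [hsum]
  have hb : ∀ i, L (bv i) ^ 2 ≤ ‖L‖ ^ 2 := by
    intro i
    have h4 := L.le_opNorm (bv i)
    have h5 : ‖(bv i : E 3)‖ = 1 := by simp
    rw [h5, mul_one] at h4
    rw [← sq_abs]
    exact pow_le_pow_left₀ (abs_nonneg _) h4 2
  have h6 := hb 0
  have h7 := hb 1
  have h8 := hb 2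
  have h10 : ((lamPhi p.1)⁻¹ * L (bv 0) ^ 2 + (lamPhi p.1)⁻¹ * L (bv 1) ^ 2 + L (bv 2) ^ 2)
      * lamPhi p.1 = L (bv 0) ^ 2 + L (bv 1) ^ 2 + lamPhi p.1 * L (bv 2) ^ 2 := by
    field_simp
  rw [h10]
  by_cases hxM : p.1 ∈ Mset
  · have h9 := lamPhi_le hxM
    nlinarith [sq_nonneg (L (bv 2)), sq_nonneg (‖L‖)]
  · have hL0 : L = 0 := c5F_fderiv_zero hxM
    rw [hL0]
    simp

/-- C5 (uses C1, A2) -/
theorem not_discrete_phi0 (hM : ∀ x ∈ Mset, x ∈ M) {μ : Measure M} (hμ : IsRiemVolume 3 5 (phiM M) μ) :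
    ¬ HasDiscreteSpectrum 3 5 (phiM M) μ := by
  have hmeas : MeasurableSet (M : Set (E 3)) := c1_isOpen.measurableSet
  have hne : Nonempty M := ⟨⟨Mset_nonempty.some.1, hM _ Mset_nonempty.some.2⟩⟩
  have hD0 : 0 ≤ c5D := integral_nonneg fun x => by positivity
  have hres : ∀ k, ∫ x in (M : Set (E 3)), c5F k x ^ 2 = 1 := by
    intro k
    rw [setIntegral_eq_integral_of_forall_compl_eq_zero, c5_int_F]
    intro x hx
    rw [c5F_zero' (fun h => hx (hM x h))]
    norm_num
  have hsq : ∀ k, ∫ p, (c5u (M := M)) k p ^ 2 ∂μ = ∫ x in (M : Set (E 3)), c5F k x ^ 2 * lamPhi x :=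
    fun k => integral_phi0 hne hμ (fun p => (c5u (M := M)) k p ^ 2) (fun x => c5F k x ^ 2) (fun p => rfl)
  have hint : ∀ k, IntegrableOn (fun x => c5F k x ^ 2 * lamPhi x) (M : Set (E 3)) := by
    intro k
    apply Integrable.integrableOn
    apply Continuous.integrable_of_hasCompactSupport
    · exact ((c5F_contDiff k).continuous.pow 2).mul continuous_lamPhi
    · refine HasCompactSupport.intro (isCompact_closedBall (c5c k) (1 / 4)) fun x hx => ?_
      rw [Metric.mem_closedBall, not_le] at hx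
      rw [c5F_zero hx.le]
      norm_num
  refine not_discrete_of_sequence isImm_phi0 hμ (u := c5u (M := M)) (c5u_isTest hM) (C := 5 + 15 * c5D)
    ?_ ?_ ?_ ?_
  · -- energies
    intro k
    classical
    set G : E 3 → ℝ := fun x => if h : x ∈ M then
      gradInner 3 5 (phiM M) ((c5u (M := M)) k) ((c5u (M := M)) k) ⟨x, h⟩ else 0 with hG
    have hGp : ∀ p : M, G p.1 = gradInner 3 5 (phiM M) ((c5u (M := M)) k) ((c5u (M := M)) k) p := fun p => by
      rw [hG]
      simp only
      rw [dif_pos p.2]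
    have h1 : dirichlet 3 5 (phiM M) μ ((c5u (M := M)) k) ((c5u (M := M)) k)
        = ∫ x in (M : Set (E 3)), G x * lamPhi x := by
      rw [dirichlet]
      exact integral_phi0 hne hμ _ _ (fun p => (hGp p).symm)
    rw [h1]
    have h2 : ∫ x in (M : Set (E 3)), G x * lamPhi x
        ≤ ∫ x in (M : Set (E 3)), 15 * ‖fderiv ℝ (c5F k) x‖ ^ 2 := by
      apply integral_mono_of_nonneg
      · refine (ae_restrict_iff' hmeas).mpr (ae_of_all _ fun x hx => ?_)
        show 0 ≤ G x * lamPhi x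
        have := hGp ⟨x, hx⟩
        simp only at this
        rw [this]
        exact mul_nonneg (gradInner_self_nonneg isImm_phi0 _ _) (lamPhi_pos x).le
      · exact (c5_integrable_fderiv k).integrableOn
      · refine (ae_restrict_iff' hmeas).mpr (ae_of_all _ fun x hx => ?_)
        show G x * lamPhi x ≤ _
        have := hGp ⟨x, hx⟩
        simp only at this
        rw [this]
        exact c5_grad hM k ⟨x, hx⟩
    have h3 : ∫ x in (M : Set (E 3)), 15 * ‖fderiv ℝ (c5F k) x‖ ^ 2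
        ≤ ∫ x, 15 * ‖fderiv ℝ (c5F k) x‖ ^ 2 :=
      setIntegral_le_integral (c5_integrable_fderiv k) (ae_of_all _ fun x => by positivity)
    rw [c5_int_D] at h3
    linarith
  · intro k
    rw [hsq, ← hres k]
    apply setIntegral_mono_on (c5_integrable_sq k).integrableOn (hint k) hmeas
    intro x hx
    by_cases hxM : x ∈ Mset
    · have := one_le_lamPhi hxM
      nlinarith [sq_nonneg (c5F k x)]
    · rw [c5F_zero' hxM]
      simp
  · intro k
    rw [hsq]
    have h4 : ∫ x in (M : Set (E 3)), c5F k x ^ 2 * lamPhi x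
        ≤ ∫ x in (M : Set (E 3)), 5 * c5F k x ^ 2 := by
      apply setIntegral_mono_on (hint k) ((c5_integrable_sq k).const_mul 5).integrableOn hmeas
      intro x hx
      by_cases hxM : x ∈ Mset
      · have := lamPhi_le hxM
        nlinarith [sq_nonneg (c5F k x)]
      · rw [c5F_zero' hxM]
        simp
    rw [integral_const_mul, hres k] at h4
    linarith
  · intro k l hkl
    have h5 : ∀ p : M, (c5u (M := M)) k p * (c5u (M := M)) l p = 0 := by
      intro p
      by_contra h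
      have h6 : dist p.1 (c5c k) < 1 / 4 := by
        by_contra h7
        exact h (by rw [c5u, c5F_zero (not_lt.mp h7), zero_mul])
      have h7 : dist p.1 (c5c l) < 1 / 4 := by
        by_contra h7
        exact h (by rw [mul_comm, c5u, c5F_zero (not_lt.mp h7), zero_mul])
      have h8 : dist (c5c k) (c5c l) < 1 / 2 := by
        have := dist_triangle_left (c5c k) (c5c l) p.1
        linarith
      have h9 : |(c5c k) 1 - (c5c l) 1| ≤ dist (c5c k) (c5c l) := by
        rw [dist_eq_norm, ← Real.norm_eq_abs]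
        exact PiLp.norm_apply_le (c5c k - c5c l) 1
      have e1 : (c5c k) 1 - (c5c l) 1 = 4 * ((k : ℝ) - l) := by
        show (2 + 4 * (k : ℝ)) - (2 + 4 * (l : ℝ)) = _
        ring
      rw [e1, abs_mul] at h9
      have h10 : (1 : ℝ) ≤ |(k : ℝ) - l| := by
        have h11 : (1 : ℤ) ≤ |(k : ℤ) - l| := Int.one_le_abs (by omega)
        exact_mod_cast h11
      have h12 : |(4 : ℝ)| = 4 := by norm_num
      rw [h12] at h9
      linarith
    simp only [h5]
    exact integral_zero _ _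

end Pool.Agent.helper43.MS.Gen
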